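import Pool.Agent.H38.Two.Proof

theorem Pool.Agent.Results.MP_67072b_lc.Two.result :
    ∃ (S : Type) (_ : Semigroup S), Cardinal.mk
      {t : TopologicalSpace S // @PolishSpace S t ∧ @ContinuousMul S t _} = 2 :=
  ⟨Pool.Agent.H38.Two.S, inferInstance, Pool.Agent.H38.Two.main⟩
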